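import Pool.Agent.helper84.NR.SpecW

set_option autoImplicit false

namespace Pool.Agent.helper84.NR

open scoped Classical
open Finset

/-- The access path of one edge. -/
theorem RT_one (V F : Type) (M : PMap V F) (x y : V) (A : F) (w : V)
    (hno : ∀ f, ¬ (OnV M.toCyc f x ∧ OnV M.toCyc f y)) (hxw : x ≠ w)
    (he : OnE M.toCyc A s(x, w)) :
    Acc M x y A w 1 (fun j => if j = 0 then x else w) := by
  refine ⟨le_refl 1, by simp, by simp, ?_, ?_, ?_, ?_⟩
  · intro i j hi hj hij
    have h1 : i = 0 ∨ i = 1 := by omega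
    have h2 : j = 0 ∨ j = 1 := by omega
    rcases h1 with h1 | h1 <;> rcases h2 with h2 | h2
    · omega
    · subst h1; subst h2
      simp only [if_true, one_ne_zero, if_false] at hij
      exact absurd hij hxw
    · subst h1; subst h2
      simp only [if_true, one_ne_zero, if_false] at hij
      exact absurd hij.symm hxw
    · omega
  · intro j hj
    have h1 : j = 0 := by omega
    subst h1
    simpa using he
  · intro j hj
    have h1 : j = 0 := by omega
    subst h1
    rintro ⟨B, hB, hB'⟩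
    exact hno B ⟨by simpa using hB', hB⟩
  · intro f _ _ j h1 h2 _
    omega

theorem RT (hRTA : RTA_stmt) (hCA1 : CA1_stmt) (hCA2 : CA2_stmt) : RT_stmt := by
  intro V F M x y A B hno hAx hBy hex hey
  obtain ⟨i, hsi, hBi, hi⟩ := hex
  obtain ⟨k, hsk, hAk, hk⟩ := hey
  have hno' : ∀ f, ¬ (OnV M.toCyc f y ∧ OnV M.toCyc f x) := fun f h => hno f ⟨h.2, h.1⟩
  have hAi : OnV M.toCyc A (ww M x A i) := ⟨_, rfl⟩
  have hBk : OnV M.toCyc B (ww M y B k) := ⟨_, rfl⟩
  obtain ⟨m, a, ha⟩ := hRTA V F M x y A i hno hAx hsi.1 hsi.2.1 (by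
    rcases hi with hi | hi
    · refine Or.inl fun j h1 h2 h3 => ?_
      have := hi j ⟨h1, lt_trans h2 hsi.2.1, h3⟩
      omega
    · refine Or.inr fun j h1 h2 h3 => ?_
      have := hi j ⟨by omega, h2, h3⟩
      omega)
  obtain ⟨m', b, hb⟩ := hRTA V F M y x B k hno' hBy hsk.1 hsk.2.1 (by
    rcases hk with hk | hk
    · refine Or.inl fun j h1 h2 h3 => ?_
      have := hk j ⟨h1, lt_trans h2 hsk.2.1, h3⟩
      omega
    · refine Or.inr fun j h1 h2 h3 => ?_
      have := hk j ⟨by omega, h2, h3⟩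
      omega)
  by_cases hvw : ww M x A i = ww M y B k
  · rw [← hvw] at hb
    exact hCA1 V F M x y A B _ m m' a b hAx hBy ha hb
  · have hAB : A ≠ B := by
      rintro rfl
      exact hno _ ⟨hAx, hBy⟩
    obtain ⟨e1, e2, -⟩ := M.poly A B hAB _ _ hvw hAi hAk hBi hBk
    obtain ⟨-, hE⟩ := h_EDG V F M
    by_cases hxw : Adj M.toCyc x (ww M y B k)
    · have h1 : x ≠ ww M y B k := by
        intro h
        exact hno B ⟨by rw [h]; exact hBk, hBy⟩
      have h2 := RT_one V F M x y A _ hno h1 (hE A _ _ hxw hAx hAk)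
      exact hCA1 V F M x y A B _ 1 m' _ b hAx hBy h2 hb
    · by_cases hvy : Adj M.toCyc (ww M x A i) y
      · have h1 : y ≠ ww M x A i := by
          intro h
          exact hno A ⟨hAx, by rw [h]; exact hAi⟩
        have h3 : OnE M.toCyc B s(y, ww M x A i) := by
          rw [Sym2.eq_swap]
          exact hE B _ _ hvy hBi hBy
        have h2 := RT_one V F M y x B _ hno' h1 h3
        exact hCA1 V F M x y A B _ m 1 a _ hAx hBy ha h2
      · exact hCA2 V F M x y A B _ _ m m' a b hAx hBy e1 e2 hxw hvy ha hb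

end Pool.Agent.helper84.NR
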